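import Pool.Agent.helper12.TZ.Spec

set_option autoImplicit false

namespace Pool.Agent.TZ

open Pool.Agent.helper58.DC Pool.Agent.DI Pool.Agent.GR Pool.Agent.OB

theorem STB (hUAB : UAB_stmt) (hCEN : CEN_stmt) : STB_stmt := by
  intro G _ _ s y H hC hF
  have hmono : Monotone (Ul s y H) := monotone_nat_of_le_succ (fun i => (hUAB G s y H hC hF i).2)
  obtain ⟨N, hN⟩ := WellFoundedGT.monotone_chain_condition (⟨Ul s y H, hmono⟩ : ℕ →o Subgroup G)
  have hN' : ∀ m, N ≤ m → Ul s y H N = Ul s y H m := fun m hm => hN m hm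
  have hU : Ul s y H N = Ui s y H := by
    apply le_antisymm
    · exact le_iSup (Ul s y H) N
    · refine iSup_le fun i => ?_
      rw [hN' (max N i) (le_max_left _ _)]
      exact hmono (le_max_right _ _)
  have hst : ∀ i, N ≤ i → Ul s y H i = Ui s y H := fun i hi => by rw [← hN' i hi, hU]
  have hleH : Ui s y H ≤ H := by
    rw [← hst (N + 1) (Nat.le_succ N)]
    intro u hu
    exact hu.1
  have habU : ∀ u ∈ Ui s y H, ∀ v ∈ Ui s y H, u * v = v * u := by
    rw [← hU]
    exact (hUAB G s y H hC hF N).1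
  have h1 : ∀ u ∈ Ui s y H, ∀ b ∈ Bi s y H, u * b = b * u := fun u hu =>
    nx_comm (habU u hu) (hC u (hleH hu))
  have h2 : ∀ b ∈ Bi s y H, s * b = b * s :=
    nx_comm (fun v hv => (hC v (hleH hv)).symm) rfl
  refine ⟨⟨N, hst⟩, hleH, ?_, ?_⟩
  · intro b hb
    exact nx_comm (fun v hv => (h1 v hv b hb).symm) (h2 b hb).symm
  · intro u hu
    constructor
    · intro h
      have h' : y⁻¹ * u * y * u⁻¹ ∈ Ul s y H N ⊔ Subgroup.zpowers s := by
        rw [hU]; exact h
      have := hCEN G s y H hC hF N u hu h'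
      rwa [hst (N + 1) (Nat.le_succ N)] at this
    · intro h
      rw [← hst (N + 1) (Nat.le_succ N)] at h
      have h' := h.2.2.2
      rw [hU] at h'
      exact h'

end Pool.Agent.TZ
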